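import Pool.Agent.N96.AX.S

/-!
# The Lieb-Thirring inequality for sums of eigenvalues with small non-zero axial angular momenta

Let `d = k + 2 ≥ 3` and write `ℝ^d = ℂ × ℝ^k`. Let `V ∈ L^(1 + d/2)(ℝ^d)` be real, and let
`u_1, …, u_N` be orthonormal functions with angular momenta `ℓ_n`, `1 ≤ |ℓ_n| ≤ 5`, for the rotations
of the plane `ℂ`: `u_n(e^{iθ} x, y) = e^{i ℓ_n θ} u_n(x, y)` (for `d = 3`: cylindrical coordinates,
`u_n = G_n(r, y) e^{i ℓ_n φ}`). Then
`∑ (∫ |∇u_n|² + ∫ V |u_n|²) ≥ - L_{1,d}^cl ∫ V_-^(1 + d/2)`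
with the semiclassical constant `L_{1,d}^cl = (2 / (d + 2)) ω_d / (2π)^d`. So for axially symmetric `V`
the negative eigenvalues of `-Δ + V` with such eigenfunctions satisfy
`∑ |E_n| ≤ L_{1,d}^cl ∫ V_-^(1 + d/2)`, the bound expected for all eigenvalues if `d ≥ 3`.

Proof. The kinetic energy inequality with the semiclassical constant holds for these systems (hand-in
`MP_cfe56d_mp/AxialMomenta`); then use Young's inequality for `V_- ρ`.
-/

set_option autoImplicit false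

open MeasureTheory

namespace Pool.Agent.Results.MP_4c716f_mp.AxialEigenvalues

/-- The semiclassical constant `L_{1,d}^cl = (2 / (d + 2)) ω_d / (2π)^d`, `ω_d` the volume of the unit
ball. -/
noncomputable def Lcl (d : ℕ) : ℝ :=
  2 / ((d : ℝ) + 2) * ((volume (Metric.ball (0 : EuclideanSpace ℝ (Fin d)) 1)).toReal /
    (2 * Real.pi) ^ d)

/-- The space `ℝ^(k+2) = ℂ × ℝ^k` with the Lebesgue measure. -/
abbrev Space (k : ℕ) : Type := ℂ × (Fin k → ℝ)

/-- `|∇u|²`: the sum of the squares of the absolute values of the `k + 2` partial derivatives. -/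
noncomputable def grad2 {k : ℕ} (u : Space k → ℂ) (z : Space k) : ℝ :=
  ‖fderiv ℝ u z (1, 0)‖ ^ 2 + ‖fderiv ℝ u z (Complex.I, 0)‖ ^ 2 +
    ∑ j, ‖fderiv ℝ u z (0, Pi.single j 1)‖ ^ 2

/-- An orthonormal system of functions `u_n(x, y)` on `ℂ × ℝ^k` such that `u_n` has the angular
momentum `ℓ n` for the rotations of `x`, is continuously differentiable at the points with `x ≠ 0`,
and has finite kinetic energy. -/
structure AxialSystem {k N : ℕ} (ℓ : Fin N → ℤ) (u : Fin N → Space k → ℂ) : Prop where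
  angular : ∀ n (θ : ℝ) x y, u n (Complex.exp (θ * Complex.I) * x, y) =
    Complex.exp (ℓ n * θ * Complex.I) * u n (x, y)
  smooth : ∀ n, ContDiffOn ℝ 1 (u n) {z | z.1 ≠ 0}
  square : ∀ n, Integrable (fun z => ‖u n z‖ ^ 2)
  energy : ∀ n, Integrable (grad2 (u n))
  orthonormal : ∀ n n', ∫ z, star (u n z) * u n' z = if n = n' then (1 : ℂ) else 0

/-- The energy `∫ |∇u|² + ∫ V |u|²`. -/
noncomputable def energy {k : ℕ} (V : Space k → ℝ) (u : Space k → ℂ) : ℝ :=
  (∫ z, grad2 u z) + ∫ z, V z * ‖u z‖ ^ 2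

/-- Let `d = k + 2 ≥ 3`, and let `V` be a real potential on `ℂ × ℝ^k` with `|V|^(1 + d/2)` integrable.
For every axial system with `1 ≤ |ℓ_n| ≤ 5` for all `n` all `V |u_n|²` are integrable, and the sum of
the energies is at least `- L_{1,d}^cl ∫ V_-^(1 + d/2)`. -/
theorem result (k N : ℕ) (hk : 1 ≤ k) (ℓ : Fin N → ℤ) (hℓ : ∀ n, 1 ≤ |ℓ n| ∧ |ℓ n| ≤ 5)
    (u : Fin N → Space k → ℂ) (hu : AxialSystem ℓ u) (V : Space k → ℝ)
    (hVm : AEStronglyMeasurable V volume)
    (hV : Integrable (fun z => |V z| ^ (1 + ((k + 2 : ℕ) : ℝ) / 2))) :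
    (∀ n, Integrable (fun z => V z * ‖u n z‖ ^ 2)) ∧
    -(Lcl (k + 2) * ∫ z, (max (-V z) 0) ^ (1 + ((k + 2 : ℕ) : ℝ) / 2)) ≤
      ∑ n, energy V (u n) := by
  have hdd : 1 + (k + 1) = k + 2 := by omega
  have hL : ∀ n, ℓ n ∈ Pool.Agent.N96.AX.L5 := by
    intro n
    have h1 := abs_le.1 (hℓ n).2
    have h2 : ℓ n ≠ 0 := abs_pos.1 (by have := (hℓ n).1; omega)
    unfold Pool.Agent.N96.AX.L5
    simp only [Finset.mem_insert, Finset.mem_singleton]
    omega
  have h := Pool.Agent.N96.AX.five hk ℓ hL u hu.angular hu.smooth hu.square hu.energy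
    hu.orthonormal
  rw [hdd] at h
  exact Pool.Agent.N96.AX.dualGen (d := k + 2) (by omega) u (fun n => ∫ z, grad2 (u n) z)
    hu.square h.1 h.2 V hVm hV

end Pool.Agent.Results.MP_4c716f_mp.AxialEigenvalues
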