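import Pool.Agent.N96.AX.Q

/-!
# The Lieb-Thirring inequality for sums of eigenvalues, for partially radial functions

Split `ℝ^d = ℝ^m × ℝ^k`, `d = m + k`, with `m ≥ 6` and an arbitrary `k ≥ 0`. For every real potential
`V ∈ L^(1 + d/2)(ℝ^d)` and all orthonormal functions `u_1, …, u_N` which depend on `x ∈ ℝ^m` only
through `|x|` (and on `y ∈ ℝ^k` arbitrarily),
`∑ (∫ |∇u_n|² + ∫ V |u_n|²) ≥ - L_{1,d}^cl ∫ V_-^(1 + d/2)`
with the semiclassical constant `L_{1,d}^cl = (2 / (d + 2)) ω_d / (2π)^d`. So the negative eigenvalues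
of `-Δ + V` (`V` radial in `x`) with eigenfunctions which are radial in `x` satisfy
`∑ |E_n| ≤ L_{1,d}^cl ∫ V_-^(1 + d/2)`.

Proof. The kinetic energy inequality with the semiclassical constant holds for these systems: with
`u_n(x, y) = F_n(|x|, y)` the functions `f_n(r, y) = (σ r^(m-1))^(1/2) F_n(r, y)` are orthonormal on the
half space `r > 0` of `ℝ^(1+k)`, vanish at `r = 0`, and
`∫ |∇u_n|² = ∫ |∇f_n|² + ((m-1)(m-3)/4) ∫ |f_n|² / r²`; the inequality of the starting file
`MP_cfe56d_mp/AllDimensions` in dimension `1 + k` bounds the first term by `∫ s^(1 + 2/(1+k))`,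
`s = ∑ |f_n|²`, and the inequality of the means for the two terms gives `K_d^cl ∫ ρ^(1 + 2/d)`. Then
use Young's inequality for `V_- ρ`.
-/

set_option autoImplicit false

open MeasureTheory

namespace Pool.Agent.Results.MP_4c716f_mp.PartiallyRadial

/-- The semiclassical constant `L_{1,d}^cl = (2 / (d + 2)) ω_d / (2π)^d`, `ω_d` the volume of the unit
ball. -/
noncomputable def Lcl (d : ℕ) : ℝ :=
  2 / ((d : ℝ) + 2) * ((volume (Metric.ball (0 : EuclideanSpace ℝ (Fin d)) 1)).toReal /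
    (2 * Real.pi) ^ d)

/-- The space `ℝ^m × ℝ^k`, `d = m + k`, with the Lebesgue measure. -/
abbrev Space (m k : ℕ) : Type := EuclideanSpace ℝ (Fin m) × (Fin k → ℝ)

/-- `|∇u|²`: the sum of the squares of the absolute values of the `m + k` partial derivatives. -/
noncomputable def grad2 {m k : ℕ} (u : Space m k → ℂ) (z : Space m k) : ℝ :=
  ∑ i, ‖fderiv ℝ u z (EuclideanSpace.single i 1, 0)‖ ^ 2 +
    ∑ j, ‖fderiv ℝ u z (0, Pi.single j 1)‖ ^ 2

/-- An orthonormal system of functions `u_n(x, y)` on `ℝ^m × ℝ^k` which are radial in `x`,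
continuously differentiable at the points with `x ≠ 0`, and have finite kinetic energy. -/
structure PartiallyRadialSystem {m k N : ℕ} (u : Fin N → Space m k → ℂ) : Prop where
  radial : ∀ n x x' y, ‖x‖ = ‖x'‖ → u n (x, y) = u n (x', y)
  smooth : ∀ n, ContDiffOn ℝ 1 (u n) {z | z.1 ≠ 0}
  square : ∀ n, Integrable (fun z => ‖u n z‖ ^ 2)
  energy : ∀ n, Integrable (grad2 (u n))
  orthonormal : ∀ n n', ∫ z, star (u n z) * u n' z = if n = n' then (1 : ℂ) else 0

/-- The energy `∫ |∇u|² + ∫ V |u|²`. -/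
noncomputable def energy {m k : ℕ} (V : Space m k → ℝ) (u : Space m k → ℂ) : ℝ :=
  (∫ z, grad2 u z) + ∫ z, V z * ‖u z‖ ^ 2

/-- Let `m ≥ 6`, `k ≥ 0`, `d = m + k`, and let `V` be a real potential on `ℝ^m × ℝ^k` with
`|V|^(1 + d/2)` integrable. For every partially radial system all `V |u_n|²` are integrable, and the
sum of the energies is at least `- L_{1,d}^cl ∫ V_-^(1 + d/2)`. -/
theorem result (m k N : ℕ) (hm : 6 ≤ m) (u : Fin N → Space m k → ℂ)
    (hu : PartiallyRadialSystem u) (V : Space m k → ℝ) (hVm : AEStronglyMeasurable V volume)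
    (hV : Integrable (fun z => |V z| ^ (1 + ((m + k : ℕ) : ℝ) / 2))) :
    (∀ n, Integrable (fun z => V z * ‖u n z‖ ^ 2)) ∧
    -(Lcl (m + k) * ∫ z, (max (-V z) 0) ^ (1 + ((m + k : ℕ) : ℝ) / 2)) ≤
      ∑ n, energy V (u n) := by
  obtain ⟨q, rfl⟩ : ∃ q, m = q + 1 := ⟨m - 1, by omega⟩
  have e : q + 1 + k = q + (k + 1) := by omega
  rw [e] at hV ⊢
  exact Pool.Agent.N96.AX.dual (q := q) (k := k) (by omega) u hu.radial hu.smooth hu.square
    hu.energy hu.orthonormal V hVm hV

end Pool.Agent.Results.MP_4c716f_mp.PartiallyRadial
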